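import Pool.Agent.Work.MP_41c404_pr.Main

namespace Pool.Agent.Results.MP_41c404_pr.NotTight

open Filter Pool.Agent.Work.MP_41c404_pr

/-- For every `k ≥ 32` the first-moment critical densities of the `i`-maximal assignments converge,
as `i → ∞`, to a limit strictly above the satisfiability threshold `d_k` (under both readings of
the critical density). -/
theorem result (k : ℕ) (hk : 32 ≤ k) :
    ∃ L L' : ℝ, Tendsto (critLarge k) atTop (nhds L) ∧ Tendsto (critSmall k) atTop (nhds L') ∧
      satThreshold k < L ∧ L ≤ L' :=
  main hk

end Pool.Agent.Results.MP_41c404_pr.NotTight
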